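import Pool.Agent.Run7.h62.RV.Iface

/-!
# REAL (MP_620441_co): realization of all jumps
-/

namespace Pool.Agent.Run7.h639.RV

open Finset Filter Topology
open Pool.Agent.Run7.h62.RV

noncomputable section

open scoped Classical

variable {s d : ℕ}

/-- Independence in terms of coefficients. -/
lemma li_iff (v : Fin s → VS d) (A : Finset (Fin s)) :
    LinearIndependent ℝ (fun i : A => v i) ↔
      ∀ x : Fin s → ℝ, (∀ j ∉ A, x j = 0) → ∑ j, x j • v j = 0 → x = 0 := by
  have key : ∀ x : Fin s → ℝ, (∀ j ∉ A, x j = 0) →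
      ∑ i : A, x i • v i = ∑ j, x j • v j := by
    intro x hx
    rw [Finset.sum_coe_sort A (fun j => x j • v j)]
    exact Finset.sum_subset (Finset.subset_univ A) (fun j _ hj => by rw [hx j hj, zero_smul])
  constructor
  · intro h x hx hs
    rw [Fintype.linearIndependent_iff] at h
    have h2 := h (fun i => x i) (by rw [← hs, ← key x hx])
    funext j
    by_cases hj : j ∈ A
    · exact h2 ⟨j, hj⟩
    · exact hx j hj
  · intro h
    rw [Fintype.linearIndependent_iff]
    intro g hg i
    have h0 : ∀ j ∉ A, (fun j => if hj : j ∈ A then g ⟨j, hj⟩ else 0) j = 0 :=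
      fun j hj => by simp [hj]
    have := h (fun j => if hj : j ∈ A then g ⟨j, hj⟩ else 0) h0 (by
      rw [← key _ h0, ← hg]
      apply Finset.sum_congr rfl
      intro i _
      simp)
    have h3 := congrFun this i
    simpa using h3

/-- Avoidance of finitely many proper subspaces. -/
lemma avoid {ι : Type} [Finite ι] (W : ι → Submodule ℝ (VS d)) (hW : ∀ i, W i ≠ ⊤)
    (U : Set (Pt d)) (hU : IsOpen U) (hne : U.Nonempty) :
    ∃ y ∈ U, ∀ i, ((1, y) : VS d) ∉ W i := by
  have ho : ∀ i, IsOpen {y : Pt d | ((1, y) : VS d) ∉ W i} := by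
    intro i
    have hc : IsClosed ((W i : Submodule ℝ (VS d)) : Set (VS d)) := (W i).closed_of_finiteDimensional
    have : Continuous (fun y : Pt d => ((1, y) : VS d)) := by fun_prop
    exact (hc.preimage this).isOpen_compl
  have hd : ∀ i, Dense {y : Pt d | ((1, y) : VS d) ∉ W i} := by
    intro i
    rw [← compl_compl {y : Pt d | ((1, y) : VS d) ∉ W i}, ← interior_eq_empty_iff_dense_compl]
    by_contra hcon
    obtain ⟨y0, hy0⟩ := Set.nonempty_iff_ne_empty.2 hcon
    have hsub : ∀ y ∈ interior ({y : Pt d | ((1, y) : VS d) ∉ W i}ᶜ), ((1, y) : VS d) ∈ W i := by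
      intro y hy
      have := interior_subset hy
      simpa using this
    have htop : (W i).comap (LinearMap.inr ℝ ℝ (Pt d)) = ⊤ := by
      apply Submodule.eq_top_of_nonempty_interior'
      refine ⟨0, ?_⟩
      rw [mem_interior_iff_mem_nhds]
      have hn : interior ({y : Pt d | ((1, y) : VS d) ∉ W i}ᶜ) ∈ 𝓝 (0 + y0) := by
        rw [zero_add]
        exact isOpen_interior.mem_nhds hy0
      have hcont : Tendsto (fun z : Pt d => z + y0) (𝓝 0) (𝓝 (0 + y0)) :=
        (continuous_id.add continuous_const).tendsto 0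
      filter_upwards [hcont hn] with z hz
      have h1 := hsub _ hz
      have h2 := hsub _ hy0
      have h3 := (W i).sub_mem h1 h2
      simpa using h3
    apply hW i
    rw [eq_top_iff]
    rintro ⟨t, z⟩ _
    have h2 := hsub _ hy0
    have h4 : ((0, z - t • y0) : VS d) ∈ W i := by
      have : z - t • y0 ∈ (W i).comap (LinearMap.inr ℝ ℝ (Pt d)) := by rw [htop]; trivial
      simpa using this
    have h5 := (W i).add_mem h4 ((W i).smul_mem t h2)
    simpa using h5
  have hdd : Dense (⋂ i, {y : Pt d | ((1, y) : VS d) ∉ W i}) := dense_iInter_of_isOpen ho hd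
  obtain ⟨y, hyU, hy⟩ := hdd.inter_open_nonempty U hU hne
  exact ⟨y, hyU, fun i => by simpa using Set.mem_iInter.1 hy i⟩

/-! ## The points of `B` -/

/-- The set `B`. -/
def BB (s d : ℕ) : Finset (Fin s) := univ.filter (fun i : Fin s => (i : ℕ) < d + 1)

lemma mem_BB {i : Fin s} : i ∈ BB s d ↔ (i : ℕ) < d + 1 := by simp [BB]

/-- The points of `B`. -/
def bp (s d : ℕ) (μ : ℕ → ℝ) (i : Fin s) : Pt d :=
  WithLp.toLp 2 (fun k : Fin d => if (i : ℕ) < d then
    (if (k : ℕ) = i ∧ (k : ℕ) + 1 < d then 1 else 0) else (if (k : ℕ) + 1 < d then μ k else 0))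

/-- The dependency. -/
def dx (s d : ℕ) (μ : ℕ → ℝ) (i : Fin s) : ℝ :=
  if (i : ℕ) < d then μ i else if (i : ℕ) = d then -1 else 0

lemma card_lt (m : ℕ) (hm : m ≤ s) : (univ.filter (fun i : Fin s => (i : ℕ) < m)).card = m := by
  rw [Fin.card_filter_val_lt]
  exact min_eq_right hm

lemma card_BB (h : d + 2 ≤ s) : (BB s d).card = d + 1 := card_lt (d + 1) (by omega)

/-- sums over the support -/
lemma sum_coord (y : Fin s → ℝ) (v : Fin s → Pt d) (h : ∑ j, y j • lift v j = 0) :
    ∑ j, y j = 0 ∧ ∀ k : Fin d, ∑ j, y j * (v j) k = 0 := by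
  have h1 := congrArg Prod.fst h
  have h2 := congrArg Prod.snd h
  constructor
  · simpa [lift, Prod.fst_sum] using h1
  · intro k
    have h3 := congrArg (fun w : Pt d => w k) h2
    simpa [lift, Prod.snd_sum] using h3

lemma coord_sum (y : Fin s → ℝ) (v : Fin s → Pt d) (h1 : ∑ j, y j = 0)
    (h2 : ∀ k : Fin d, ∑ j, y j * (v j) k = 0) : ∑ j, y j • lift v j = 0 := by
  refine Prod.ext ?_ ?_
  · simpa [lift, Prod.fst_sum] using h1
  · ext k
    have := h2 k
    simpa [lift, Prod.snd_sum] using this

/-- The first `d` vectors are independent. -/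
lemma indep_first (hd : 1 ≤ d) (hs : d + 2 ≤ s) (μ : ℕ → ℝ) (z : Fin s → ℝ)
    (hz : ∀ j : Fin s, ¬ (j : ℕ) < d → z j = 0) (h : ∑ j, z j • lift (bp s d μ) j = 0) : z = 0 := by
  obtain ⟨h1, h2⟩ := sum_coord _ _ h
  have hk : ∀ j : Fin s, (j : ℕ) + 1 < d → z j = 0 := by
    intro j hj
    have h3 := h2 ⟨j, by omega⟩
    rw [Finset.sum_eq_single j] at h3
    · have hjd : (j : ℕ) < d := by omega
      simpa [bp, hj, hjd] using h3
    · intro i _ hij
      by_cases hi : (i : ℕ) < d
      · have hne : ¬ ((j : ℕ) = (i : ℕ)) := fun hc => hij (Fin.ext hc.symm)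
        simp [bp, hi, hne]
      · rw [hz i hi, zero_mul]
    · intro hc
      exact absurd (Finset.mem_univ _) hc
  rw [Finset.sum_eq_single (⟨d - 1, by omega⟩ : Fin s)] at h1
  · funext j
    by_cases hj : (j : ℕ) < d
    · by_cases hj' : (j : ℕ) + 1 < d
      · exact hk j hj'
      · have : j = ⟨d - 1, by omega⟩ := Fin.ext (by simp; omega)
        rw [this, h1]; rfl
    · exact hz j hj
  · intro i _ hi
    by_cases hid : (i : ℕ) < d
    · apply hk
      have : (i : ℕ) ≠ d - 1 := fun hc => hi (Fin.ext (by simpa using hc))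
      omega
    · exact hz i hid
  · intro hc
    exact absurd (Finset.mem_univ _) hc

lemma dx_dep (hs : d + 2 ≤ s) (μ : ℕ → ℝ) (hμ : ∑ i ∈ range d, μ i = 1) :
    ∑ j, dx s d μ j • lift (bp s d μ) j = 0 := by
  apply coord_sum
  · have e1 : ∑ j : Fin s, dx s d μ j
        = ∑ n ∈ range s, (if n < d then μ n else if n = d then -1 else 0) :=
      Fin.sum_univ_eq_sum_range (fun n => if n < d then μ n else if n = d then -1 else 0) s
    rw [e1, ← Finset.sum_subset (Finset.range_subset_range.2 (show d + 1 ≤ s by omega))]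
    · rw [Finset.sum_range_succ]
      have e2 : ∑ n ∈ range d, (if n < d then μ n else if n = d then (-1 : ℝ) else 0)
          = ∑ n ∈ range d, μ n :=
        Finset.sum_congr rfl (fun n hn => by simp [Finset.mem_range.1 hn])
      rw [e2, hμ]
      simp
    · intro n _ hn
      have h1 : ¬ n < d + 1 := by simpa using hn
      have h2 : ¬ n < d := by omega
      have h3 : ¬ n = d := by omega
      simp [h2, h3]
  · intro k
    by_cases hk : (k : ℕ) + 1 < d
    · have e : ∀ j : Fin s, dx s d μ j * (bp s d μ j) k
          = (if j = (⟨k, by omega⟩ : Fin s) then μ k else 0)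
            + (if j = (⟨d, by omega⟩ : Fin s) then -μ k else 0) := by
        intro j
        by_cases hj : (j : ℕ) < d
        · have hjd : ¬ j = (⟨d, by omega⟩ : Fin s) := fun hc => by
            rw [hc] at hj; simp at hj
          by_cases hjk : j = (⟨k, by omega⟩ : Fin s)
          · have : (k : ℕ) = (j : ℕ) := by rw [hjk]
            simp only [dx, bp, if_pos hj]
            rw [if_pos ⟨this, hk⟩, if_pos hjk, if_neg hjd, ← this]
            ring
          · have : ¬ (k : ℕ) = (j : ℕ) := fun hc => hjk (Fin.ext hc.symm)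
            simp only [dx, bp, if_pos hj]
            rw [if_neg (fun hc => this hc.1), if_neg hjk, if_neg hjd]
            ring
        · have hjk : ¬ j = (⟨k, by omega⟩ : Fin s) := fun hc => by
            apply hj; rw [hc]; exact k.2
          by_cases hjd : (j : ℕ) = d
          · have hjd' : j = (⟨d, by omega⟩ : Fin s) := Fin.ext hjd
            simp only [dx, bp, if_neg hj, if_pos hjd, if_pos hk]
            rw [if_neg hjk, if_pos hjd']
            ring
          · have hjd' : ¬ j = (⟨d, by omega⟩ : Fin s) := fun hc => hjd (by rw [hc])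
            simp only [dx, if_neg hj, if_neg hjd]
            rw [if_neg hjk, if_neg hjd']
            ring
      rw [Finset.sum_congr rfl (fun j _ => e j), Finset.sum_add_distrib,
        Finset.sum_ite_eq' univ, Finset.sum_ite_eq' univ]
      simp
    · apply Finset.sum_eq_zero
      intro j _
      have : (bp s d μ j) k = 0 := by
        by_cases hj : (j : ℕ) < d
        · simp [bp, hk]
        · simp [bp, hk, hj]
      rw [this, mul_zero]

/-- Every proper subset of `B` is independent. -/
lemma base_indep (hd : 1 ≤ d) (hs : d + 2 ≤ s) (μ : ℕ → ℝ) (hμ : ∑ i ∈ range d, μ i = 1)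
    (hμ0 : ∀ i < d, μ i ≠ 0) (y : Fin s → ℝ) (hy : ∀ j ∉ BB s d, y j = 0)
    (h : ∑ j, y j • lift (bp s d μ) j = 0) (b : Fin s) (hb : b ∈ BB s d) (hyb : y b = 0) :
    y = 0 := by
  have hD := dx_dep hs μ hμ
  set D : Fin s := ⟨d, by omega⟩ with hDdef
  have hz := indep_first hd hs μ (fun j => y j + y D * dx s d μ j) (by
    intro j hj
    by_cases hjd : (j : ℕ) = d
    · have : j = D := Fin.ext hjd
      simp [dx, this, hDdef]
    · have h1 : y j = 0 := hy j (by rw [mem_BB]; omega)
      simp [dx, h1, hj, hjd]) (by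
    have : ∀ j, (y j + y D * dx s d μ j) • lift (bp s d μ) j
        = y j • lift (bp s d μ) j + y D • (dx s d μ j • lift (bp s d μ) j) := by
      intro j
      rw [add_smul, mul_smul]
    rw [Finset.sum_congr rfl (fun j _ => this j), Finset.sum_add_distrib, ← Finset.smul_sum, hD, h]
    simp)
  have hb2 := congrFun hz b
  simp only [hyb, zero_add, Pi.zero_apply, mul_eq_zero] at hb2
  have hdx : dx s d μ b ≠ 0 := by
    have hb' := mem_BB.1 hb
    by_cases hbd : (b : ℕ) < d
    · simpa [dx, hbd] using hμ0 b hbd
    · have : (b : ℕ) = d := by omega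
      simp [dx, this]
  have hyD : y D = 0 := by tauto
  funext j
  have := congrFun hz j
  simpa [hyD] using this

/-! ## The other points -/

lemma sum_update (p : Fin s → Pt d) (q : Fin s) (y : Pt d) (x : Fin s → ℝ) :
    ∑ j, x j • lift (Function.update p q y) j
      = x q • ((1, y) : VS d) + ∑ j ∈ univ.erase q, x j • lift p j := by
  rw [← Finset.add_sum_erase univ _ (Finset.mem_univ q)]
  congr 1
  · simp [lift]
  · apply Finset.sum_congr rfl
    intro j hj
    have : j ≠ q := (Finset.mem_erase.1 hj).1
    simp [lift, Function.update_of_ne this]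

lemma span_ne_top (p : Fin s → Pt d) (A : Finset (Fin s)) (hA : A.card ≤ d) :
    Submodule.span ℝ ((A.image (lift p) : Finset (VS d)) : Set (VS d)) ≠ ⊤ := by
  intro h
  have h1 := finrank_span_finset_le_card (R := ℝ) (A.image (lift p))
  rw [Set.finrank, h, finrank_top, Module.finrank_prod, Module.finrank_self,
    finrank_euclideanSpace_fin] at h1
  have h2 : (A.image (lift p)).card ≤ A.card := Finset.card_image_le
  omega

/-- The indices on the positive side. -/
def EE (s d k : ℕ) : Finset (Fin s) :=
  univ.filter (fun i : Fin s => d + 1 ≤ (i : ℕ) ∧ (i : ℕ) < d + 1 + k)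

lemma extend (hd : 1 ≤ d) (hs : d + 2 ≤ s) (μ : ℕ → ℝ) (hμ : ∑ i ∈ range d, μ i = 1)
    (hμ0 : ∀ i < d, μ i ≠ 0) (k : ℕ) (M : Finset (Fin s)) : ∃ p : Fin s → Pt d,
    (∀ i ∈ BB s d, p i = bp s d μ i) ∧
    (∀ i ∈ M, i ∉ BB s d → 0 < sgn (EE s d k) i * (p i) (⟨d - 1, by omega⟩ : Fin d)) ∧
    ∀ A ⊆ BB s d ∪ M, A.card ≤ d + 1 → A ≠ BB s d →
      LinearIndependent ℝ (fun i : A => lift p i) := by
  induction M using Finset.induction_on with
  | empty =>
    refine ⟨bp s d μ, fun _ _ => rfl, fun i hi => absurd hi (Finset.notMem_empty i), ?_⟩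
    intro A hA _ hne
    rw [Finset.union_empty] at hA
    obtain ⟨b, hb, hbA⟩ := Finset.exists_of_ssubset (Finset.ssubset_iff_subset_ne.2 ⟨hA, hne⟩)
    rw [li_iff]
    intro x hx hsum
    exact base_indep hd hs μ hμ hμ0 x (fun j hj => hx j (fun hc => hj (hA hc))) hsum b hb (hx b hbA)
  | insert q M hq ih =>
    obtain ⟨p, hp1, hp2, hp3⟩ := ih
    by_cases hqB : q ∈ BB s d
    · refine ⟨p, hp1, ?_, ?_⟩
      · intro i hi hiB
        rcases Finset.mem_insert.1 hi with rfl | hi
        · exact absurd hqB hiB
        · exact hp2 i hi hiB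
      · have : BB s d ∪ insert q M = BB s d ∪ M := by
          ext j
          simp only [Finset.mem_union, Finset.mem_insert]
          constructor
          · rintro (h | rfl | h)
            · exact Or.inl h
            · exact Or.inl hqB
            · exact Or.inr h
          · rintro (h | h)
            · exact Or.inl h
            · exact Or.inr (Or.inr h)
        rw [this]
        exact hp3
    · have hsq : sgn (EE s d k) q * sgn (EE s d k) q = 1 := by
        unfold sgn
        split_ifs <;> norm_num
      obtain ⟨y, hyU, hyW⟩ := avoid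
        (fun A : {A : Finset (Fin s) // A.card ≤ d} =>
          Submodule.span ℝ ((A.1.image (lift p) : Finset (VS d)) : Set (VS d)))
        (fun A => span_ne_top p A.1 A.2)
        {y : Pt d | 0 < sgn (EE s d k) q * y (⟨d - 1, by omega⟩ : Fin d)}
        (by
          apply isOpen_lt continuous_const
          fun_prop)
        ⟨EuclideanSpace.single (⟨d - 1, by omega⟩ : Fin d) (sgn (EE s d k) q), by
          simp [hsq]⟩
      refine ⟨Function.update p q y, ?_, ?_, ?_⟩
      · intro i hi
        have : i ≠ q := fun hc => hqB (hc ▸ hi)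
        rw [Function.update_of_ne this]
        exact hp1 i hi
      · intro i hi hiB
        by_cases hiq : i = q
        · subst hiq
          rw [Function.update_self]
          exact hyU
        · rw [Function.update_of_ne hiq]
          exact hp2 i (Finset.mem_of_mem_insert_of_ne hi hiq) hiB
      · intro A hA hcard hne
        rw [li_iff]
        intro x hx hsum
        rw [sum_update] at hsum
        -- the set without `q`
        have hsub : A.erase q ⊆ BB s d ∪ M := by
          intro j hj
          obtain ⟨hjq, hjA⟩ := Finset.mem_erase.1 hj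
          rcases Finset.mem_union.1 (hA hjA) with h | h
          · exact Finset.mem_union_left _ h
          · exact Finset.mem_union_right _ (Finset.mem_of_mem_insert_of_ne h hjq)
        have herase : A.erase q ≠ BB s d := by
          by_cases hqA : q ∈ A
          · intro hc
            have h1 := Finset.card_erase_of_mem hqA
            rw [hc, card_BB hs] at h1
            have : 0 < A.card := Finset.card_pos.2 ⟨q, hqA⟩
            omega
          · rw [Finset.erase_eq_of_notMem hqA]
            exact hne
        have hLI := (li_iff _ _).1 (hp3 (A.erase q) hsub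
          (le_trans (Finset.card_le_card (Finset.erase_subset _ _)) hcard) herase)
        have hxq : x q = 0 := by
          by_cases hqA : q ∈ A
          · by_contra hne0
            have hcardd : (A.erase q).card ≤ d := by
              rw [Finset.card_erase_of_mem hqA]
              omega
            apply hyW ⟨A.erase q, hcardd⟩
            have h1 : ((1, y) : VS d) = -(x q)⁻¹ • ∑ j ∈ univ.erase q, x j • lift p j := by
              have h2 : ∑ j ∈ univ.erase q, x j • lift p j = -(x q • ((1, y) : VS d)) :=
                eq_neg_of_add_eq_zero_right hsum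
              rw [h2, neg_smul, smul_neg, neg_neg, smul_smul, inv_mul_cancel₀ hne0, one_smul]
            rw [h1]
            apply Submodule.smul_mem
            apply Submodule.sum_mem
            intro j hj
            by_cases hjA : j ∈ A
            · apply Submodule.smul_mem
              apply Submodule.subset_span
              have : j ∈ A.erase q := Finset.mem_erase.2 ⟨(Finset.mem_erase.1 hj).1, hjA⟩
              exact Finset.mem_coe.2 (Finset.mem_image_of_mem _ this)
            · rw [hx j hjA, zero_smul]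
              exact Submodule.zero_mem _
          · exact hx q hqA
        apply hLI
        · intro j hj
          by_cases hjq : j = q
          · rw [hjq]; exact hxq
          · exact hx j (fun hc => hj (Finset.mem_erase.2 ⟨hjq, hc⟩))
        · rw [← Finset.add_sum_erase univ _ (Finset.mem_univ q), hxq, zero_smul, zero_add]
          rw [hxq, zero_smul, zero_add] at hsum
          exact hsum

/-! ## The weights -/

/-- The coefficients. -/
def mu (d a : ℕ) (n : ℕ) : ℝ := if n < a then (1 + d - a) / a else -1

lemma mu_sum {a : ℕ} (ha : 1 ≤ a) (had : a ≤ d) : ∑ i ∈ range d, mu d a i = 1 := by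
  obtain ⟨r, rfl⟩ := Nat.exists_eq_add_of_le had
  rw [Finset.sum_range_add]
  have h1 : ∑ x ∈ range a, mu (a + r) a x = a * ((1 + ((a + r : ℕ) : ℝ) - a) / a) := by
    have h : ∀ x ∈ range a, mu (a + r) a x = (1 + ((a + r : ℕ) : ℝ) - a) / a :=
      fun x hx => if_pos (Finset.mem_range.1 hx)
    rw [Finset.sum_congr rfl h]
    simp
  have h2 : ∑ x ∈ range r, mu (a + r) a (a + x) = -r := by
    have h : ∀ x ∈ range r, mu (a + r) a (a + x) = -1 :=
      fun x _ => if_neg (by omega)
    rw [Finset.sum_congr rfl h]
    simp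
  rw [h1, h2]
  have : (a : ℝ) ≠ 0 := by positivity
  field_simp
  push_cast
  ring

lemma mu_pos {a : ℕ} (ha : 1 ≤ a) (had : a ≤ d) {i : ℕ} (hi : i < a) : 0 < mu d a i := by
  have h1 : (0 : ℝ) < a := by exact_mod_cast ha
  have h2 : (a : ℝ) ≤ d := by exact_mod_cast had
  rw [mu, if_pos hi]
  apply div_pos _ h1
  linarith

lemma mu_neg {a : ℕ} {i : ℕ} (hi : ¬ i < a) : mu d a i = -1 := by
  rw [mu, if_neg hi]

/-- The positive part. -/
def LL (s a : ℕ) : Finset (Fin s) := univ.filter (fun i : Fin s => (i : ℕ) < a)

lemma card_EE {k : ℕ} (hk : k + d + 1 ≤ s) : (EE s d k).card = k := by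
  have h : EE s d k = (univ.filter (fun i : Fin s => (i : ℕ) < d + 1 + k)) \
      (univ.filter (fun i : Fin s => (i : ℕ) < d + 1)) := by
    ext i
    simp only [EE, Finset.mem_filter, Finset.mem_univ, true_and, Finset.mem_sdiff]
    omega
  rw [h, Finset.card_sdiff_of_subset, card_lt _ (by omega), card_lt _ (by omega)]
  · omega
  · intro i
    simp only [Finset.mem_filter, Finset.mem_univ, true_and]
    omega

lemma EE_sub {k : ℕ} : EE s d k ⊆ (BB s d)ᶜ := by
  intro i hi
  rw [Finset.mem_compl, mem_BB]
  have := (Finset.mem_filter.1 hi).2.1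
  omega

/-- **REAL**. -/
theorem p_REAL : S_REAL := by
  intro hLOC hG s d a k α β ha had hs hk
  have hd : 1 ≤ d := le_trans ha had
  have hμ := mu_sum ha had
  have hμ0 : ∀ i < d, mu d a i ≠ 0 := by
    intro i _
    by_cases hia : i < a
    · exact (mu_pos ha had hia).ne'
    · rw [mu_neg hia]; norm_num
  obtain ⟨p, hp1, hp2, hp3⟩ := extend (s := s) hd hs (mu d a) hμ hμ0 k univ
  rw [Finset.union_eq_right.2 (Finset.subset_univ _)] at hp3
  set B := BB s d with hB
  set E := EE s d k with hE
  set L := LL s a with hL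
  set la : Fin d := ⟨d - 1, by omega⟩ with hla
  have hLB : L ⊆ B := by
    intro i hi
    rw [hB, mem_BB]
    have : (i : ℕ) < a := (Finset.mem_filter.1 hi).2
    omega
  -- the dependency
  have hdep : ∑ j, dx s d (mu d a) j • lift p j = 0 := by
    rw [← dx_dep hs (mu d a) hμ]
    apply Finset.sum_congr rfl
    intro j _
    by_cases hj : j ∈ B
    · simp only [lift]
      rw [hp1 j hj]
    · have h0 : dx s d (mu d a) j = 0 := by
        rw [hB, mem_BB] at hj
        have h1 : ¬ (j : ℕ) < d := by omega
        have h2 : ¬ (j : ℕ) = d := by omega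
        simp [dx, h1, h2]
      rw [h0, zero_smul, zero_smul]
  have hSD : SD (lift p) B := by
    refine ⟨card_BB hs, ?_, fun A h1 h2 => hp3 A (Finset.subset_univ _) h1 h2⟩
    rw [li_iff]
    intro hcon
    have h0 := hcon (dx s d (mu d a)) (by
      intro j hj
      rw [hB, mem_BB] at hj
      have h1 : ¬ (j : ℕ) < d := by omega
      have h2 : ¬ (j : ℕ) = d := by omega
      simp [dx, h1, h2]) hdep
    have h1 := congrFun h0 ⟨d, by omega⟩
    simp [dx] at h1
  -- the last coordinate
  let f : VS d →ₗ[ℝ] ℝ :=
    ((EuclideanSpace.proj la : Pt d →L[ℝ] ℝ) : Pt d →ₗ[ℝ] ℝ) ∘ₗ LinearMap.snd ℝ ℝ (Pt d)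
  have hf : ∀ (r : Fin s → Pt d) (j : Fin s), f (lift r j) = (r j) la := by
    intro r j
    simp [f, lift]
  have hpB : ∀ b ∈ B, (p b) la = 0 := by
    intro b hb
    rw [hp1 b hb]
    have : ¬ (d - 1 + 1 < d) := by omega
    simp [bp, hla, this]
  have hData : Data (lift p) B L E := by
    refine ⟨hLB, EE_sub, ⟨dx s d (mu d a), ?_, ?_, hdep⟩, ⟨f, ?_, ?_⟩⟩
    · intro b hb
      rw [hB, mem_BB] at hb
      by_cases hba : (b : ℕ) < a
      · have h1 : b ∈ L := Finset.mem_filter.2 ⟨Finset.mem_univ _, hba⟩
        have h2 : (b : ℕ) < d := by omega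
        simp only [sgn, if_pos h1, dx, if_pos h2, one_mul]
        exact mu_pos ha had hba
      · have h1 : b ∉ L := fun hc => hba (Finset.mem_filter.1 hc).2
        by_cases h2 : (b : ℕ) < d
        · simp [sgn, h1, dx, h2, mu_neg hba]
        · have h3 : (b : ℕ) = d := by omega
          simp [sgn, h1, dx, h3]
    · intro j hj
      rw [hB, mem_BB] at hj
      have h1 : ¬ (j : ℕ) < d := by omega
      have h2 : ¬ (j : ℕ) = d := by omega
      simp [dx, h1, h2]
    · intro b hb
      rw [hf, hpB b hb]
    · intro q hq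
      rw [hf]
      exact hp2 q (Finset.mem_univ _) hq
  obtain ⟨c, hc⟩ := hLOC s d (lift p) B L E hs hSD hData α β
  -- the curve
  set b0 : Fin s := ⟨0, by omega⟩ with hb0
  have hb0L : b0 ∈ L := Finset.mem_filter.2 ⟨Finset.mem_univ _, by simp [hb0]; omega⟩
  have hb0B : b0 ∈ B := hLB hb0L
  let pc : ℝ → Fin s → Pt d := fun t =>
    Function.update p b0 (p b0 + t • EuclideanSpace.single la (1 : ℝ))
  have hpc0 : lift (pc 0) = lift p := by
    simp [pc]
  have hcont : Continuous (fun t => lift (pc t)) := by
    apply continuous_pi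
    intro j
    simp only [lift]
    apply Continuous.prodMk continuous_const
    by_cases hj : j = b0
    · subst hj
      simp only [pc, Function.update_self]
      fun_prop
    · simp only [pc, Function.update_of_ne hj]
      exact continuous_const
  have ht0 : Tendsto (fun t => lift (pc t)) (𝓝 0) (𝓝 (lift p)) := by
    have := hcont.tendsto 0
    rwa [hpc0] at this
  have hev1 := ht0.eventually hc
  have hev2 : ∀ᶠ t in 𝓝 (0 : ℝ), ∀ A : Finset (Fin s), A.card ≤ d + 1 → A ≠ B →
      LinearIndependent ℝ (fun i : A => lift (pc t) i) := by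
    rw [Filter.eventually_all]
    intro A
    by_cases hA : A.card ≤ d + 1 ∧ A ≠ B
    · have hopen := isOpen_setOfPred_linearIndependent (𝕜 := ℝ) (E := VS d) (ι := A)
      have hcA : Continuous (fun t : ℝ => fun i : A => lift (pc t) i) := by
        apply continuous_pi
        intro i
        exact (continuous_apply (i : Fin s)).comp hcont
      have hmem : (fun i : A => lift (pc 0) i) ∈
          {g : A → VS d | LinearIndependent ℝ g} := by
        have := hp3 A (Finset.subset_univ _) hA.1 hA.2
        simpa [hpc0] using this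
      filter_upwards [hcA.continuousAt.preimage_mem_nhds (hopen.mem_nhds hmem)] with t ht _ _
      exact ht
    · exact Filter.Eventually.of_forall (fun t h1 h2 => absurd ⟨h1, h2⟩ hA)
  obtain ⟨ε, hε, hball⟩ := Metric.eventually_nhds_iff.1 (hev1.and hev2)
  -- values of `f` on the curve
  have hfb0 : ∀ t, f (lift (pc t) b0) = t := by
    intro t
    rw [hf]
    simp only [pc, Function.update_self]
    simp [hpB b0 hb0B]
  have hfj : ∀ t j, j ≠ b0 → f (lift (pc t) j) = (p j) la := by
    intro t j hj
    rw [hf]
    simp only [pc, Function.update_of_ne hj]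
  have hsumf : ∀ (t : ℝ) (x : Fin s → ℝ) (q : Fin s), q ∉ B → (∀ j ∉ insert q B, x j = 0) →
      ∑ j, x j • lift (pc t) j = 0 → x b0 * t + x q * (p q) la = 0 := by
    intro t x q hq hx hsum
    have h1 := congrArg f hsum
    rw [map_sum, map_zero] at h1
    have hqb : q ≠ b0 := fun hc => hq (hc ▸ hb0B)
    rw [← Finset.add_sum_erase univ _ (Finset.mem_univ b0),
      ← Finset.add_sum_erase (univ.erase b0) _ (Finset.mem_erase.2 ⟨hqb, Finset.mem_univ q⟩)] at h1
    rw [Finset.sum_eq_zero, add_zero, map_smul, map_smul, hfb0, hfj t q hqb] at h1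
    · simpa using h1
    · intro j hj
      obtain ⟨hjq, hj'⟩ := Finset.mem_erase.1 hj
      obtain ⟨hjb, _⟩ := Finset.mem_erase.1 hj'
      rw [map_smul, hfj t j hjb]
      by_cases hjB : j ∈ B
      · rw [hpB j hjB, smul_zero]
      · rw [hx j (fun hc => by
          rcases Finset.mem_insert.1 hc with h | h
          · exact hjq h
          · exact hjB h), zero_smul]
  have hzero : ∀ (t : ℝ), |t| < ε → ∀ (x : Fin s → ℝ) (q : Fin s), q ∉ B →
      (∀ j ∉ insert q B, x j = 0) → ∑ j, x j • lift (pc t) j = 0 → x b0 = 0 → x q = 0 → x = 0 := by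
    intro t ht x q hq hx hsum h1 h2
    have h3 := (hball (by rw [Real.dist_eq, sub_zero]; exact ht)).2 (B.erase b0)
      (by rw [Finset.card_erase_of_mem hb0B, card_BB hs]; omega)
      (fun hc => by
        have := Finset.notMem_erase b0 B
        rw [hc] at this
        exact this hb0B)
    refine (li_iff _ _).1 h3 x ?_ hsum
    intro j hj
    by_cases hjb : j = b0
    · rw [hjb]; exact h1
    · by_cases hjq : j = q
      · rw [hjq]; exact h2
      · apply hx
        intro hc
        rcases Finset.mem_insert.1 hc with h | h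
        · exact hjq h
        · exact hj (Finset.mem_erase.2 ⟨hjb, h⟩)
  set q : Fin s := ⟨d + 1, by omega⟩ with hqdef
  have hq : q ∉ B := by
    rw [hB, mem_BB]
    simp [hqdef]
  have hgq : 0 < sgn E q * (p q) la := hp2 q (Finset.mem_univ _) hq
  have hgq0 : (p q) la ≠ 0 := by
    intro hc
    rw [hc, mul_zero] at hgq
    exact lt_irrefl _ hgq
  have hsq : sgn E q * sgn E q = 1 := by
    unfold sgn
    split_ifs <;> norm_num
  have hGen : ∀ t : ℝ, |t| < ε → t ≠ 0 → Gen (lift (pc t)) := by
    intro t ht ht0 A hA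
    by_cases hAB : A = B
    · rw [li_iff]
      intro x hx hsum
      rw [hAB] at hx
      have hx' : ∀ j ∉ insert q B, x j = 0 := fun j hj =>
        hx j (fun hc => hj (Finset.mem_insert_of_mem hc))
      have h1 := hsumf t x q hq hx' hsum
      have h2 : x q = 0 := hx q hq
      rw [h2, zero_mul, add_zero] at h1
      have h3 : x b0 = 0 := by
        rcases mul_eq_zero.1 h1 with h | h
        · exact h
        · exact absurd h ht0
      exact hzero t ht x q hq hx' hsum h3 h2
    · exact (hball (by rw [Real.dist_eq, sub_zero]; exact ht)).2 A hA hAB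
  -- the types
  have hty : ∀ (t : ℝ), |t| < ε → t ≠ 0 → ∀ E' : Finset (Fin s), IsType (lift (pc t)) B L E' →
      ∃ x : Fin s → ℝ, (0 ≤ x b0) ∧ (0 ≤ sgn E' q * x q) ∧ ¬ (x b0 = 0 ∧ x q = 0) ∧
        x b0 * t + x q * (p q) la = 0 := by
    intro t ht ht0 E' hT
    have h1 := hT q hq
    have h2 := (Finset.mem_filter.1 h1).2
    obtain ⟨x, hx0, hx1, hx2, hx3⟩ := (hG s d _ _ _).1 h2
    refine ⟨x, ?_, ?_, ?_, hsumf t x q hq hx1 hx3⟩
    · have h3 := hx2 b0
      have h4 : b0 ∈ L ∪ (E' ∩ {q}) := Finset.mem_union_left _ hb0L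
      simpa [sgn, h4] using h3
    · have h3 := hx2 q
      have h4 : (q ∈ L ∪ (E' ∩ {q})) ↔ q ∈ E' := by
        simp only [Finset.mem_union, Finset.mem_inter, Finset.mem_singleton, and_true]
        constructor
        · rintro (h | h)
          · exact absurd (hLB h) hq
          · exact h
        · exact Or.inr
      unfold sgn at h3 ⊢
      simp only [h4] at h3
      exact h3
    · rintro ⟨h3, h4⟩
      exact hx0 (hzero t ht x q hq hx1 hx3 h3 h4)
  have hcards : (Bᶜ \ E).card = s - d - 1 - k := by
    rw [Finset.card_sdiff_of_subset EE_sub, Finset.card_compl, card_BB hs, card_EE hk,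
      Fintype.card_fin]
    omega
  have hcardL : L.card = a := card_lt a (by omega)
  have hneg : Phi α β (lift (pc (-(ε / 2)))) = c + Jump α β s d a k := by
    have habs : |(-(ε / 2))| < ε := by
      rw [abs_neg, abs_of_pos (by linarith)]
      linarith
    have hne : (-(ε / 2)) ≠ 0 := by
      apply neg_ne_zero.2
      positivity
    rcases (hball (by rw [Real.dist_eq, sub_zero]; exact habs)).1 (hGen _ habs hne) with h | h
    · rw [h.2, hcardL, card_EE hk]
    · exfalso
      obtain ⟨x, hx1, hx2, hx3, hx4⟩ := hty _ habs hne _ h.1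
      have hsg : sgn (Bᶜ \ E) q = - sgn E q := by
        unfold sgn
        by_cases hqE : q ∈ E
        · simp [hqE]
        · simp [hqE, hq]
      rw [hsg] at hx2
      have h5 : x q * (p q) la = (sgn E q * x q) * (sgn E q * (p q) la) := by
        calc x q * (p q) la = (sgn E q * sgn E q) * (x q * (p q) la) := by rw [hsq, one_mul]
          _ = _ := by ring
      have h6 : (sgn E q * x q) * (sgn E q * (p q) la) ≤ 0 :=
        mul_nonpos_of_nonpos_of_nonneg (by linarith) hgq.le
      have h7 : x b0 * (-(ε / 2)) ≤ 0 := mul_nonpos_of_nonneg_of_nonpos hx1 (by linarith)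
      rw [h5] at hx4
      have h8 : x b0 * (-(ε / 2)) = 0 := by linarith
      have h9 : (sgn E q * x q) * (sgn E q * (p q) la) = 0 := by linarith
      rw [← h5] at h9
      apply hx3
      constructor
      · rcases mul_eq_zero.1 h8 with h | h
        · exact h
        · exact absurd h hne
      · rcases mul_eq_zero.1 h9 with h | h
        · exact h
        · exact absurd h hgq0
  have hpos : Phi α β (lift (pc (ε / 2))) = c + Jump α β s d a (s - d - 1 - k) := by
    have habs : |ε / 2| < ε := by
      rw [abs_of_pos (by linarith)]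
      linarith
    have hne : (ε / 2) ≠ 0 := by positivity
    rcases (hball (by rw [Real.dist_eq, sub_zero]; exact habs)).1 (hGen _ habs hne) with h | h
    · exfalso
      obtain ⟨x, hx1, hx2, hx3, hx4⟩ := hty _ habs hne _ h.1
      have h5 : x q * (p q) la = (sgn E q * x q) * (sgn E q * (p q) la) := by
        calc x q * (p q) la = (sgn E q * sgn E q) * (x q * (p q) la) := by rw [hsq, one_mul]
          _ = _ := by ring
      have h6 : 0 ≤ (sgn E q * x q) * (sgn E q * (p q) la) := mul_nonneg hx2 hgq.le
      have h7 : 0 ≤ x b0 * (ε / 2) := mul_nonneg hx1 (by linarith)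
      rw [h5] at hx4
      have h8 : x b0 * (ε / 2) = 0 := by linarith
      have h9 : (sgn E q * x q) * (sgn E q * (p q) la) = 0 := by linarith
      rw [← h5] at h9
      apply hx3
      constructor
      · rcases mul_eq_zero.1 h8 with h | h
        · exact h
        · exact absurd h hne
      · rcases mul_eq_zero.1 h9 with h | h
        · exact h
        · exact absurd h hgq0
    · rw [h.2, hcardL, hcards]
  refine ⟨pc (-(ε / 2)), pc (ε / 2), hGen _ ?_ ?_, hGen _ ?_ ?_, ?_⟩
  · rw [abs_neg, abs_of_pos (by linarith)]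
    linarith
  · apply neg_ne_zero.2
    positivity
  · rw [abs_of_pos (by linarith)]
    linarith
  · positivity
  · rw [hneg, hpos]
    ring

end

end Pool.Agent.Run7.h639.RV
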