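import Pool.Agent.Run7.h639.RV.Real

/-!
# TWO (MP_620441_co): `s = d + 3`
-/

namespace Pool.Agent.Run7.h639.RV

open Finset Filter Topology
open Pool.Agent.Run7.h62.RV

noncomputable section

open scoped Classical

variable {s d : ℕ}

lemma sgn_sq (T : Finset (Fin s)) (i : Fin s) : sgn T i * sgn T i = 1 := by
  unfold sgn
  split_ifs <;> norm_num

/-- A dependency with two zero entries vanishes. -/
lemma two_zero (hs : s = d + 3) {v : Fin s → VS d} (hv : Gen v) {x : Fin s → ℝ}
    (hx : ∑ j, x j • v j = 0) {i j : Fin s} (hij : i ≠ j) (hi : x i = 0) (hj : x j = 0) :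
    x = 0 := by
  have hcard : ((univ.erase i).erase j : Finset (Fin s)).card ≤ d + 1 := by
    rw [Finset.card_erase_of_mem (Finset.mem_erase.2 ⟨hij.symm, Finset.mem_univ _⟩),
      Finset.card_erase_of_mem (Finset.mem_univ _), Finset.card_univ, Fintype.card_fin]
    omega
  refine (li_iff _ _).1 (hv _ hcard) x ?_ hx
  intro k hk
  by_cases h1 : k = j
  · rw [h1]; exact hj
  · by_cases h2 : k = i
    · rw [h2]; exact hi
    · exact absurd (Finset.mem_erase.2 ⟨h1, Finset.mem_erase.2 ⟨h2, Finset.mem_univ _⟩⟩) hk

lemma dep_comb {v : Fin s → VS d} {x y : Fin s → ℝ} (hx : ∑ j, x j • v j = 0)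
    (hy : ∑ j, y j • v j = 0) (a b : ℝ) : ∑ j, (a * x j + b * y j) • v j = 0 := by
  have : ∀ j, (a * x j + b * y j) • v j = a • (x j • v j) + b • (y j • v j) := by
    intro j
    rw [add_smul, mul_smul, mul_smul]
  rw [Finset.sum_congr rfl (fun j _ => this j), Finset.sum_add_distrib, ← Finset.smul_sum,
    ← Finset.smul_sum, hx, hy]
  simp

/-- A dependency which is not a multiple of a given one. -/
lemma exists_other (hs : s = d + 3) (v : Fin s → VS d) (x0 : Fin s → ℝ) :
    ∃ w : Fin s → ℝ, ∑ j, w j • v j = 0 ∧ ∀ c : ℝ, w ≠ c • x0 := by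
  by_contra hcon
  push Not at hcon
  let φ : (Fin s → ℝ) →ₗ[ℝ] VS d :=
    { toFun := fun x => ∑ j, x j • v j
      map_add' := by
        intro x y
        simp [add_smul, Finset.sum_add_distrib]
      map_smul' := by
        intro c x
        simp [mul_smul, Finset.smul_sum] }
  have h1 := LinearMap.finrank_range_add_finrank_ker φ
  have h2 : Module.finrank ℝ (LinearMap.range φ) ≤ d + 1 := by
    refine le_trans (Submodule.finrank_le _) ?_
    rw [Module.finrank_prod, Module.finrank_self, finrank_euclideanSpace_fin]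
    omega
  have h3 : LinearMap.ker φ ≤ Submodule.span ℝ {x0} := by
    intro w hw
    obtain ⟨c, hc⟩ := hcon w hw
    rw [Submodule.mem_span_singleton]
    exact ⟨c, hc.symm⟩
  have h4 : Module.finrank ℝ (LinearMap.ker φ) ≤ 1 := by
    refine le_trans (Submodule.finrank_mono h3) ?_
    have := finrank_span_le_card (R := ℝ) ({x0} : Set (Fin s → ℝ))
    simpa using this
  rw [Module.finrank_fin_fun] at h1
  omega

/-- A strictly positive dependency. -/
lemma exists_pos (hs : s = d + 3) {v : Fin s → VS d} (hv : Gen v) {T : Finset (Fin s)}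
    {x0 : Fin s → ℝ} (hx0 : x0 ≠ 0) (hsg : ∀ j, 0 ≤ sgn T j * x0 j) (hx : ∑ j, x0 j • v j = 0) :
    ∃ z : Fin s → ℝ, ∑ j, z j • v j = 0 ∧ ∀ j, 0 < sgn T j * z j := by
  by_cases hall : ∀ j, x0 j ≠ 0
  · refine ⟨x0, hx, fun j => lt_of_le_of_ne (hsg j) (fun h => ?_)⟩
    have h1 : sgn T j * (sgn T j * x0 j) = 0 := by rw [← h, mul_zero]
    rw [← mul_assoc, sgn_sq, one_mul] at h1
    exact hall j h1
  · push Not at hall
    obtain ⟨p, hp⟩ := hall
    have hother : ∀ j, j ≠ p → x0 j ≠ 0 := fun j hj hc => hx0 (two_zero hs hv hx hj hc hp)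
    obtain ⟨w, hw, hwc⟩ := exists_other hs v x0
    have hwp : w p ≠ 0 := by
      intro hc
      have : Nontrivial (Fin s) := Fin.nontrivial_iff_two_le.2 (by omega)
      obtain ⟨i, hi⟩ := exists_ne p
      have h1 := two_zero hs hv (dep_comb hw hx 1 (-(w i / x0 i))) hi
        (by field_simp [hother i hi]; ring) (by rw [hc, hp]; ring)
      apply hwc (w i / x0 i)
      funext j
      have h2 := congrFun h1 j
      simp only [Pi.zero_apply] at h2
      rw [Pi.smul_apply, smul_eq_mul]
      linarith
    have hev : ∀ᶠ t in 𝓝 (0 : ℝ), ∀ j, j ≠ p → 0 < sgn T j * (x0 j + t * (sgn T p * w p) * w j) := by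
      rw [Filter.eventually_all]
      intro j
      by_cases hj : j = p
      · exact Filter.Eventually.of_forall (fun t h => absurd hj h)
      · have hpos : 0 < sgn T j * (x0 j + 0 * (sgn T p * w p) * w j) := by
          have : sgn T j * x0 j ≠ 0 := by
            intro h
            have h1 : sgn T j * (sgn T j * x0 j) = 0 := by rw [h, mul_zero]
            rw [← mul_assoc, sgn_sq, one_mul] at h1
            exact hother j hj h1
          have h2 := lt_of_le_of_ne (hsg j) this.symm
          simpa using h2
        have hc : Continuous (fun t : ℝ => sgn T j * (x0 j + t * (sgn T p * w p) * w j)) := by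
          fun_prop
        filter_upwards [hc.continuousAt.eventually (lt_mem_nhds hpos)] with t ht _
        exact ht
    obtain ⟨ε, hε, hball⟩ := Metric.eventually_nhds_iff.1 hev
    have h1 := hball (y := ε / 2) (by
      rw [Real.dist_eq, sub_zero, abs_of_pos (by linarith)]
      linarith)
    refine ⟨fun j => 1 * x0 j + (ε / 2 * (sgn T p * w p)) * w j, dep_comb hx hw _ _, ?_⟩
    intro j
    by_cases hj : j = p
    · subst hj
      have h2 : sgn T j * (1 * x0 j + (ε / 2 * (sgn T j * w j)) * w j)
          = (ε / 2) * ((sgn T j * sgn T j) * (w j * w j)) := by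
        rw [hp]; ring
      rw [h2, sgn_sq, one_mul]
      have h3 : 0 < w j * w j := mul_self_pos.2 hwp
      positivity
    · have := h1 j hj
      simpa using this

/-- Exactly two circuits. -/
lemma two (hG : S_GORD) (hs : s = d + 3) {v : Fin s → VS d} (hv : Gen v) {T : Finset (Fin s)}
    (hT : ¬ Sep v univ T) : (univ.filter (fun p => ¬ Sep v (univ.erase p) T)).card = 2 := by
  obtain ⟨x0, hx0, -, hsg, hx⟩ := (hG s d v univ T).1 hT
  obtain ⟨z, hz, hzpos⟩ := exists_pos hs hv hx0 hsg hx
  obtain ⟨w, hw, hwc⟩ := exists_other hs v z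
  have hz0 : ∀ j, z j ≠ 0 := by
    intro j hc
    have := hzpos j
    rw [hc, mul_zero] at this
    exact lt_irrefl _ this
  have : Nontrivial (Fin s) := Fin.nontrivial_iff_two_le.2 (by omega)
  let ρ : Fin s → ℝ := fun i => w i / z i
  have hρ : ∀ i, w i = ρ i * z i := fun i => by
    simp only [ρ]
    rw [div_mul_cancel₀ _ (hz0 i)]
  have hu : ∀ c : ℝ, ∑ j, (1 * w j + (-c) * z j) • v j = 0 := fun c => dep_comb hw hz _ _
  have hune : ∀ c : ℝ, (fun j => 1 * w j + (-c) * z j) ≠ 0 := by
    intro c h
    apply hwc c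
    funext j
    have h2 := congrFun h j
    simp only [Pi.zero_apply] at h2
    rw [Pi.smul_apply, smul_eq_mul]
    linarith
  have hinj : Function.Injective ρ := by
    intro i j hij
    by_contra hne
    refine hune (ρ i) (two_zero hs hv (hu (ρ i)) hne ?_ ?_)
    · rw [hρ i]; ring
    · rw [hρ j, hij]; ring
  obtain ⟨pm, -, hpm⟩ := Finset.exists_min_image univ ρ ⟨(⟨0, by omega⟩ : Fin s), Finset.mem_univ _⟩
  obtain ⟨pM, -, hpM⟩ := Finset.exists_max_image univ ρ ⟨(⟨0, by omega⟩ : Fin s), Finset.mem_univ _⟩
  have hne : pm ≠ pM := by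
    intro hc
    obtain ⟨i, hi⟩ := exists_ne pm
    apply hi
    apply hinj
    apply le_antisymm
    · have := hpM i (Finset.mem_univ _)
      rw [hc]; exact this
    · exact hpm i (Finset.mem_univ _)
  have : univ.filter (fun p => ¬ Sep v (univ.erase p) T) = {pm, pM} := by
    ext p
    rw [Finset.mem_filter, Finset.mem_insert, Finset.mem_singleton, hG s d v (univ.erase p) T]
    constructor
    · rintro ⟨-, x, hx0, hxp, hxs, hxd⟩
      have hxp' : x p = 0 := hxp p (Finset.notMem_erase _ _)
      obtain ⟨i, hi⟩ := exists_ne p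
      have hui : 1 * w i + (-(ρ p)) * z i ≠ 0 := by
        intro hc
        exact hune (ρ p) (two_zero hs hv (hu (ρ p)) hi hc (by rw [hρ p]; ring))
      set b : ℝ := x i / (1 * w i + (-(ρ p)) * z i) with hb
      have hxb := two_zero hs hv (dep_comb hxd (hu (ρ p)) 1 (-b)) hi
        (by rw [hb, neg_mul, div_mul_cancel₀ _ hui]; ring) (by rw [hxp', hρ p]; ring)
      have hxj : ∀ j, x j = b * (z j * (ρ j - ρ p)) := by
        intro j
        have h2 := congrFun hxb j
        simp only [Pi.zero_apply] at h2
        rw [hρ j] at h2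
        linarith
      have hsj : ∀ j, 0 ≤ b * (ρ j - ρ p) := by
        intro j
        have h2 := hxs j
        rw [hxj j] at h2
        have h3 : sgn T j * (b * (z j * (ρ j - ρ p))) = (sgn T j * z j) * (b * (ρ j - ρ p)) := by
          ring
        rw [h3] at h2
        exact nonneg_of_mul_nonneg_right h2 (hzpos j)
      rcases lt_trichotomy b 0 with hb0 | hb0 | hb0
      · right
        apply hinj
        apply le_antisymm (hpM p (Finset.mem_univ _))
        have := hsj pM
        nlinarith
      · exfalso
        apply hx0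
        funext j
        rw [hxj j, hb0, zero_mul]; rfl
      · left
        apply hinj
        apply le_antisymm _ (hpm p (Finset.mem_univ _))
        have := hsj pm
        nlinarith
    · rintro (rfl | rfl)
      · refine ⟨Finset.mem_univ _, fun j => 1 * w j + (-(ρ p)) * z j, hune _, ?_, ?_, hu _⟩
        · intro j hj
          have : j = p := by
            by_contra hc
            exact hj (Finset.mem_erase.2 ⟨hc, Finset.mem_univ _⟩)
          subst this
          show 1 * w j + (-(ρ j)) * z j = 0
          rw [hρ j]; ring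
        · intro j
          have h1 := hpm j (Finset.mem_univ _)
          have h2 : sgn T j * (1 * w j + (-(ρ p)) * z j) = (sgn T j * z j) * (ρ j - ρ p) := by
            rw [hρ j]; ring
          show 0 ≤ sgn T j * (1 * w j + (-(ρ p)) * z j)
          rw [h2]
          exact mul_nonneg (hzpos j).le (by linarith)
      · refine ⟨Finset.mem_univ _, fun j => (-1) * w j + ρ p * z j, ?_, ?_, ?_,
          dep_comb hw hz _ _⟩
        · intro h
          apply hune (ρ p)
          funext j
          have h2 := congrFun h j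
          simp only [Pi.zero_apply] at h2 ⊢
          linarith
        · intro j hj
          have : j = p := by
            by_contra hc
            exact hj (Finset.mem_erase.2 ⟨hc, Finset.mem_univ _⟩)
          subst this
          show (-1) * w j + ρ j * z j = 0
          rw [hρ j]; ring
        · intro j
          have h1 := hpM j (Finset.mem_univ _)
          have h2 : sgn T j * ((-1) * w j + ρ p * z j) = (sgn T j * z j) * (ρ p - ρ j) := by
            rw [hρ j]; ring
          show 0 ≤ sgn T j * ((-1) * w j + ρ p * z j)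
          rw [h2]
          exact mul_nonneg (hzpos j).le (by linarith)
  rw [this, Finset.card_pair hne]

lemma sep_mono {v : Fin s → VS d} {J J' T : Finset (Fin s)} (h : J' ⊆ J) (hS : Sep v J T) :
    Sep v J' T := by
  obtain ⟨f, hf⟩ := hS
  exact ⟨f, fun j hj => hf j (h hj)⟩

lemma sep_erase {v : Fin s → VS d} {T : Finset (Fin s)} (p : Fin s) :
    Sep v (univ.erase p) (T.erase p) ↔ Sep v (univ.erase p) T := by
  have : ∀ j ∈ (univ.erase p : Finset (Fin s)), sgn (T.erase p) j = sgn T j := by
    intro j hj
    have hjp := (Finset.mem_erase.1 hj).1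
    simp [sgn, Finset.mem_erase, hjp]
  constructor
  · rintro ⟨f, hf⟩
    exact ⟨f, fun j hj => by rw [← this j hj]; exact hf j hj⟩
  · rintro ⟨f, hf⟩
    exact ⟨f, fun j hj => by rw [this j hj]; exact hf j hj⟩

/-- Counting the patterns by `p ∈ T` or `p ∉ T`. -/
lemma split_count (v : Fin s → VS d) (p : Fin s) (j : ℕ) (hj : 1 ≤ j) :
    ((univ : Finset (Finset (Fin s))).filter
      (fun T => T.card = j ∧ ¬ Sep v (univ.erase p) T)).card
    = ((NS v (univ.erase p)).filter (fun T => T.card = j)).card
      + ((NS v (univ.erase p)).filter (fun T => T.card = j - 1)).card := by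
  rw [← Finset.card_filter_add_card_filter_not (fun T => p ∉ T)]
  congr 1
  · congr 1
    ext T
    simp only [NS, Finset.mem_filter, Finset.mem_univ, true_and, Finset.mem_powerset]
    constructor
    · rintro ⟨⟨h1, h2⟩, h3⟩
      refine ⟨⟨?_, h2⟩, h1⟩
      intro i hi
      exact Finset.mem_erase.2 ⟨fun hc => h3 (hc ▸ hi), Finset.mem_univ _⟩
    · rintro ⟨⟨h1, h2⟩, h3⟩
      exact ⟨⟨h3, h2⟩, fun hc => Finset.notMem_erase _ _ (h1 hc)⟩
  · apply Finset.card_nbij' (fun T => T.erase p) (fun X => insert p X)
    · intro T hT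
      simp only [NS, Finset.coe_filter, Finset.mem_filter, Finset.mem_univ, true_and,
        Finset.mem_powerset, Set.mem_ofPred_eq, not_not] at hT ⊢
      obtain ⟨⟨h1, h2⟩, h3⟩ := hT
      refine ⟨⟨?_, ?_⟩, ?_⟩
      · exact Finset.erase_subset_erase _ (Finset.subset_univ _)
      · rw [sep_erase]; exact h2
      · rw [Finset.card_erase_of_mem h3, h1]
    · intro X hX
      simp only [NS, Finset.coe_filter, Finset.mem_filter, Finset.mem_univ, true_and,
        Finset.mem_powerset, Set.mem_ofPred_eq, not_not] at hX ⊢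
      obtain ⟨⟨h1, h2⟩, h3⟩ := hX
      have hp : p ∉ X := fun hc => Finset.notMem_erase _ _ (h1 hc)
      refine ⟨⟨?_, ?_⟩, Finset.mem_insert_self _ _⟩
      · rw [Finset.card_insert_of_notMem hp, h3]
        omega
      · rw [← sep_erase, Finset.erase_insert hp]; exact h2
    · intro T hT
      simp only [Finset.coe_filter, Finset.mem_filter, Finset.mem_univ, true_and,
        Set.mem_ofPred_eq, not_not] at hT
      exact Finset.insert_erase hT.2
    · intro X hX
      simp only [NS, Finset.coe_filter, Finset.mem_filter, Finset.mem_powerset,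
        Set.mem_ofPred_eq] at hX
      have hp : p ∉ X := fun hc => Finset.notMem_erase _ _ (hX.1.1 hc)
      exact Finset.erase_insert hp

/-- The sum over the `(d+2)`-subsets. -/
lemma sum_sets (hs : s = d + 3) (g : Finset (Fin s) → ℕ) :
    ∑ J ∈ powersetCard (d + 2) (univ : Finset (Fin s)), g J = ∑ p : Fin s, g (univ.erase p) := by
  symm
  apply Finset.sum_nbij (fun p => univ.erase p)
  · intro p _
    rw [Finset.mem_powersetCard]
    refine ⟨Finset.subset_univ _, ?_⟩
    rw [Finset.card_erase_of_mem (Finset.mem_univ _), Finset.card_univ, Fintype.card_fin]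
    omega
  · intro p _ q _ h
    by_contra hne
    have : p ∈ (univ.erase q : Finset (Fin s)) := Finset.mem_erase.2 ⟨hne, Finset.mem_univ _⟩
    rw [← (show (univ.erase p : Finset (Fin s)) = univ.erase q from h)] at this
    exact Finset.notMem_erase _ _ this
  · intro J hJ
    rw [Finset.mem_coe, Finset.mem_powersetCard] at hJ
    have h1 : (Jᶜ).card = 1 := by
      rw [Finset.card_compl, hJ.2, Fintype.card_fin]
      omega
    obtain ⟨p, hp⟩ := Finset.card_eq_one.1 h1
    refine ⟨p, Finset.mem_coe.2 (Finset.mem_univ _), ?_⟩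
    show univ.erase p = J
    rw [← compl_compl J, hp]
    ext i
    simp
  · intro p _
    rfl

/-- **TWO**. -/
theorem p_TWO : S_TWO := by
  intro hG s d v hs hv j hj
  unfold PN RN
  rw [sum_sets hs, sum_sets hs, ← Finset.sum_add_distrib]
  rw [Finset.sum_congr rfl (fun p _ => (split_count v p j hj).symm)]
  simp only [Finset.card_filter]
  rw [Finset.sum_comm]
  -- sum over T
  have key : ∀ T : Finset (Fin s), ∑ p : Fin s,
      (if T.card = j ∧ ¬ Sep v (univ.erase p) T then 1 else 0)
      = if T.card = j ∧ ¬ Sep v univ T then 2 else 0 := by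
    intro T
    by_cases hT : T.card = j
    · by_cases hsep : Sep v univ T
      · rw [if_neg (fun hc => hc.2 hsep)]
        apply Finset.sum_eq_zero
        intro p _
        rw [if_neg (fun hc => hc.2 (sep_mono (Finset.subset_univ _) hsep))]
      · rw [if_pos ⟨hT, hsep⟩, ← two hG hs hv hsep, Finset.card_filter]
        apply Finset.sum_congr rfl
        intro p _
        simp only [hT, true_and]
    · rw [if_neg (fun hc => hT hc.1)]
      apply Finset.sum_eq_zero
      intro p _
      rw [if_neg (fun hc => hT hc.1)]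
  rw [Finset.sum_congr rfl (fun T _ => key T)]
  have h2 : NS v (univ : Finset (Fin s)) = univ.filter (fun T => ¬ Sep v univ T) := by
    ext T
    simp [NS]
  rw [h2, Finset.sum_filter, Finset.mul_sum]
  apply Finset.sum_congr rfl
  intro T _
  by_cases h1 : Sep v univ T <;> by_cases h3 : T.card = j <;> simp [h1, h3]

end

end Pool.Agent.Run7.h639.RV
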